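import Pool.Agent.H.MP_0d9948_an.D

set_option autoImplicit false
set_option maxHeartbeats 400000

namespace Pool.Agent.Results.MP_0d9948_an.Yes

open MeasureTheory Filter Topology Pool.Agent.H.MP_78daa0_an Pool.Agent.H.MP_0d9948_an
open scoped ENNReal ComplexConjugate

/-- The circle `ℝ/ℤ`. -/
abbrev Circ : Type := AddCircle (1 : ℝ)

/-- Normalised Haar measure on the circle. -/
noncomputable abbrev haar : Measure Circ := AddCircle.haarAddCircle

/-- The space `L^p` of the circle. -/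
def LP (p : ℝ≥0∞) : Type := Lp ℂ p haar

noncomputable instance instGroupLP (p : ℝ≥0∞) [Fact (1 ≤ p)] : NormedAddCommGroup (LP p) :=
  Lp.instNormedAddCommGroup

noncomputable instance instSpaceLP (p : ℝ≥0∞) [Fact (1 ≤ p)] : NormedSpace ℂ (LP p) :=
  Lp.instNormedSpace

/-- A function representing an element of `L^p`. -/
noncomputable def rep {p : ℝ≥0∞} (f : LP p) : Circ → ℂ := f.1

theorem hs_zero (p : ℝ≥0∞) [Fact (1 ≤ p)] :
    ∀ n : ℤ, n < 0 → fourierCoeff (rep (0 : LP p)) n = 0 := (Hardy p).zero_mem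

theorem hs_add (p : ℝ≥0∞) [Fact (1 ≤ p)] {f g : LP p}
    (hf : ∀ n : ℤ, n < 0 → fourierCoeff (rep f) n = 0)
    (hg : ∀ n : ℤ, n < 0 → fourierCoeff (rep g) n = 0) :
    ∀ n : ℤ, n < 0 → fourierCoeff (rep (f + g)) n = 0 := (Hardy p).add_mem hf hg

theorem hs_smul (p : ℝ≥0∞) [Fact (1 ≤ p)] (c : ℂ) {f : LP p}
    (hf : ∀ n : ℤ, n < 0 → fourierCoeff (rep f) n = 0) :
    ∀ n : ℤ, n < 0 → fourierCoeff (rep (c • f)) n = 0 := (Hardy p).smul_mem c hf

/-- The elements of `L^p` whose Fourier coefficients of negative index vanish. -/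
noncomputable def HardySub (p : ℝ≥0∞) [Fact (1 ≤ p)] : Submodule ℂ (LP p) where
  carrier := {f | ∀ n : ℤ, n < 0 → fourierCoeff (rep f) n = 0}
  zero_mem' := hs_zero p
  add_mem' := hs_add p
  smul_mem' := hs_smul p

/-- The Hardy space `H^p` as a type. -/
def HP (p : ℝ≥0∞) [Fact (1 ≤ p)] : Type := HardySub p

noncomputable instance instGroupHP (p : ℝ≥0∞) [Fact (1 ≤ p)] : NormedAddCommGroup (HP p) :=
  Submodule.normedAddCommGroup (HardySub p)

noncomputable instance instSpaceHP (p : ℝ≥0∞) [Fact (1 ≤ p)] : NormedSpace ℂ (HP p) :=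
  Submodule.normedSpace (HardySub p)

/-- The boundary function of an element of `H^p`. -/
noncomputable def fn {p : ℝ≥0∞} [Fact (1 ≤ p)] (u : HP p) : Circ → ℂ := rep u.1

/-- `T` is the operator `u ↦ P_+ (conj G · u)` on `H^p`: the Fourier coefficients of index
`n ≥ 0` of `T u` are those of `conj G · u`. -/
def IsCoToeplitz {p : ℝ≥0∞} [Fact (1 ≤ p)] (G : Circ → ℂ) (T : HP p →L[ℂ] HP p) : Prop :=
  ∀ (u : HP p) (n : ℤ), 0 ≤ n →
    fourierCoeff (fn (T u)) n = fourierCoeff (fun x => conj (G x) * fn u x) n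

/-- `G` is the radial boundary function of `g`. -/
def IsBoundary (g : ℂ → ℂ) (G : Circ → ℂ) : Prop :=
  ∀ᵐ x ∂haar, Tendsto (fun r : ℝ => g (r * fourier 1 x)) (𝓝[<] 1) (𝓝 (G x))

/-- some orbit is dense for the weak topology -/
def WeaklyHypercyclic {X : Type} [NormedAddCommGroup X] [NormedSpace ℂ X] (T : X →L[ℂ] X) :
    Prop :=
  ∃ x : X, Dense (Set.range fun n : ℕ => toWeakSpace ℂ X ((T ^ n) x))

theorem aux : ∃ T : Hardy pp →L[ℂ] Hardy pp,
    (∀ (u : Hardy pp) (n : ℤ), 0 ≤ n →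
      fourierCoeff (T := (1 : ℝ)) (T u).1 n = fourierCoeff (fun x => conj (GG x) * u.1 x) n) ∧
      WeaklyHypercyclic T := by
  let T : Hardy pp →L[ℂ] Hardy pp :=
    (T0.comp (Hardy pp).subtypeL).codRestrict _ fun f => PP_mem _
  have hT : ∀ f : Hardy pp, (T f).1 = T0 f := fun f => rfl
  have hP : ∀ (n : ℕ) (f : Hardy pp), ((T ^ n) f).1 = (T0 ^ n) f := by
    intro n f
    induction n with
    | zero => rfl
    | succ n ih => rw [pow_succ', pow_succ', mul_apply_eq_comp, mul_apply_eq_comp, hT, ih]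
  refine ⟨T, fun f n hn => ?_, ?_⟩
  · have := coef_PP (-n) (Mu 1 f)
    rw [if_pos (by omega), coefL_congr (-n) (Mu_ae 1 f)] at this
    simp only [uu, zpow_one] at this
    exact this
  · obtain ⟨x, hx, H⟩ := main
    refine ⟨⟨x, hx⟩, dense_weak _ fun y Φ ε hε => ?_⟩
    classical
    let R : Lp ℂ pp mu →L[ℂ] Hardy pp := PP.codRestrict _ PP_mem
    have hR : ∀ f : Hardy pp, R f = f := fun f => Subtype.ext (Lp_ext fun n => by
      change coefL pp n (PP f) = _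
      rw [coef_PP]
      split_ifs with c
      · rfl
      · exact (mem_Hardy.1 f.2 n (by omega)).symm)
    obtain ⟨N, hN⟩ := H y y.2 (Φ.image fun φ => φ.comp R) ε hε
    refine ⟨N, fun φ hφ => ?_⟩
    have := hN _ (Finset.mem_image_of_mem _ hφ)
    rw [ContinuousLinearMap.comp_apply, ContinuousLinearMap.comp_apply, hR,
      show (T0 ^ N) x = ((T ^ N) ⟨x, hx⟩).1 from (hP N ⟨x, hx⟩).symm, hR] at this
    exact this

theorem result : ∃ g : ℂ → ℂ, DifferentiableOn ℂ g (Metric.ball 0 1) ∧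
    (∃ C : ℝ, ∀ z ∈ Metric.ball (0 : ℂ) 1, ‖g z‖ ≤ C) ∧
    (∀ z ∈ Metric.ball (0 : ℂ) 1, 1 ≤ ‖g z‖) ∧
    ∃ G : Circ → ℂ, IsBoundary g G ∧ ∃ (p : ℝ≥0∞) (_ : Fact (1 ≤ p)), 2 < p ∧ p < ∞ ∧
      ∃ T : HP p →L[ℂ] HP p, IsCoToeplitz G T ∧ WeaklyHypercyclic T :=
  ⟨gg, gg_diff, ⟨_, fun _ hz => (gg_bounds (mem_ball_zero_iff.1 hz).le).2⟩,
    fun _ hz => (gg_bounds (mem_ball_zero_iff.1 hz).le).1, GG, GG_radial, pp, fact_pp, by
      rw [pp, ← ENNReal.ofReal_ofNat]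
      exact (ENNReal.ofReal_lt_ofReal_iff (by norm_num)).2 (by norm_num),
    pp_ne_top.lt_top, aux⟩

end Pool.Agent.Results.MP_0d9948_an.Yes
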